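import Pool.Agent.R760.KV4

/-!
# MP_b5f63d_co: Voronoi cells of kissing configurations

`unif n` is the uniform probability measure of the unit sphere of `ℝ^n`; `IsKissing X` says that `X`
is a kissing configuration (unit vectors, any two distinct ones at angular distance at least
`π / 3`); `cell X x` is the Voronoi cell of `x` on the sphere. In high dimensions all cells of all
kissing configurations have measure at least `(3 / 4) ^ n`, and there are kissing configurations
with a cell of measure at most `(17 / 20) ^ n`, also after adding arbitrary further points.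
-/

set_option autoImplicit false

open MeasureTheory Filter

namespace Pool.Agent.Results.MP_b5f63d_co.CellMeasures

open Pool.Agent.R760.KN Pool.Agent.R760.KV

theorem result :
    (∀ᶠ n : ℕ in atTop, ∀ X : Finset (EuclideanSpace ℝ (Fin n)), IsKissing X → ∀ x ∈ X,
      (3 / 4 : ℝ) ^ n ≤
        (unif n).real (cell (X : Set (EuclideanSpace ℝ (Fin n))) x)) ∧
    (∀ n : ℕ, 2 ≤ n → ∃ F : Finset (EuclideanSpace ℝ (Fin n)), IsKissing F ∧ ∃ x ∈ F,
      ∀ X : Set (EuclideanSpace ℝ (Fin n)), (F : Set (EuclideanSpace ℝ (Fin n))) ⊆ X →
        (unif n).real (cell X x) ≤ (17 / 20 : ℝ) ^ n) :=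
  ⟨cells_large, fun _ hn => small_cell hn⟩

end Pool.Agent.Results.MP_b5f63d_co.CellMeasures
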