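import Pool.Agent.R760.KN6

/-!
# MP_b5f63d_co: bounds for kissing numbers by density functions supported in caps

`unif n` is the uniform probability measure of the unit sphere of `ℝ^n`, `tau n` the kissing number.
A density function of angular radius `R` (`IsLocal R p f`) is an integrable function `f` on the
sphere that vanishes outside the cap of angular radius `R` about `p` and satisfies
`∑_{x ∈ X} f x ≤ 1` for every kissing configuration `X`; it gives the bound `tau n ≤ 1 / ∫ f`
(the method of Blichfeldt and Rankin). `localBound n R` is the best bound of this kind.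

The half sphere `R = π / 2` is the exact threshold of the method: for `R ≥ π / 2` it is complete up
to the factor `2`, for `R ≥ π / 2 - c √(log n / n)` up to a power of `n`, while for radii
`R ≤ π / 2 - c √(log n / n)` it cannot prove that the classical lower bound `(2 / √3) ^ n` is sharp
up to a given power of `n`. For fixed `R < π / 2` the best bound is at least
`(1 - 1 / (4 sin² R)) ^ (-n / 2)` up to the factor `e (n + 2)`; Rankin's exponent `1 / 2` is optimal
for his radius `π / 4`.
-/

set_option autoImplicit false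

open MeasureTheory Filter

namespace Pool.Agent.Results.MP_b5f63d_co.DensityFunctions

open Pool.Agent.R760.KN

theorem result :
    -- every density function gives a bound, and the method is complete for `R ≥ π / 2`
    (∀ (n : ℕ) (R : ℝ), 0 < n → 0 < R → R ≤ Real.pi → (tau n : ℝ) ≤ localBound n R) ∧
    (∀ (n : ℕ) (R : ℝ), 0 < n → Real.pi / 2 ≤ R → R ≤ Real.pi → localBound n R ≤ 2 * tau n) ∧
    -- the barrier for the radius `R`
    (∀ (n : ℕ) (R : ℝ), 0 < n → Real.pi / 4 ≤ R → R ≤ Real.pi / 2 →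
      1 / (Real.exp 1 * (n + 2) * √(1 - 1 / (4 * Real.sin R ^ 2)) ^ n) ≤ localBound n R) ∧
    -- Rankin's radius
    (∀ n : ℕ, 10 ≤ n → localBound n (Real.pi / 4) ≤ 1024 * (n : ℝ) ^ 2 * √2 ^ n) ∧
    -- the threshold
    (∀ A : ℕ, ∃ c : ℝ, 0 < c ∧ ∀ᶠ n : ℕ in atTop, ∀ R : ℝ, Real.pi / 4 ≤ R →
      R ≤ Real.pi / 2 - c * √(Real.log n / n) →
      (n : ℝ) ^ A * (2 / √3) ^ n < localBound n R) ∧
    (∀ c : ℝ, 0 < c → ∀ᶠ n : ℕ in atTop, ∀ R : ℝ,
      Real.pi / 2 - c * √(Real.log n / n) ≤ R → R ≤ Real.pi / 2 →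
      localBound n R ≤ 8 * (n : ℝ) ^ (1 + c ^ 2) * tau n) ∧
    -- radii up to `π / 4 + 0.08`
    (∀ᶠ n : ℕ in atTop, ∀ R : ℝ, Real.pi / 4 ≤ R → R ≤ Real.pi / 4 + 2 / 25 →
      (2 : ℝ) ^ (81 / 200 * n : ℝ) ≤ localBound n R) :=
  ⟨fun _ _ hn h1 h2 => tau_le hn h1 h2, fun _ _ hn h1 h2 => half hn h1 h2,
    fun _ _ hn h1 h2 => ge hn h1 h2, fun _ hn => rankin_bound hn, scale,
    fun _ hc => near hc, small_radius⟩

end Pool.Agent.Results.MP_b5f63d_co.DensityFunctions
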