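import Pool.Agent.R760.KC3

/-!
# MP_b5f63d_co: the kissing exponent beyond Wyner's bound and spherical codes of larger angle

`A(n, θ)` (`sphMax n θ`) is the maximal size of a spherical code of `ℝ^n` of angular distance `θ`
(`IsSphCode n θ P`), `kissing n = A(n, π / 3)`. The bound `A(n, θ) ≥ |I| / μ(N_θ(I))` holds for
every code `I` of angle `θ`, `N_θ(I)` the set of points of the sphere at angular distance less than
`θ` from `I`. Applied to codes `I` of angle `t > π / 3` on a small sphere it shows: an exponent of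
the kissing numbers above Wyner's `log_2 (2 / √3) = 0.2075...` is equivalent to the lower bound
`A(n, t) ≥ q ^ n`, `q > √(1 + 1 / (12 sin² (t / 2)))`, at some angle `t > π / 3`.
-/

set_option autoImplicit false

open MeasureTheory Filter Set

namespace Pool.Agent.Results.MP_b5f63d_co.LargerAngleCriterion

open Pool.Agent.R760.KN Pool.Agent.R760.KC Pool.Agent.H818R2

theorem result :
    -- replacement: `|I| ≤ A(n, θ) μ(N_θ(I))`
    (∀ (n : ℕ) (θ : ℝ), 0 < n → 0 < Real.sin (θ / 2) → ∀ I : Finset (EuclideanSpace ℝ (Fin n)),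
      IsSphCode n θ I → (I.card : ℝ) ≤
        sphMax n θ * (unif n).real {z | ∃ x ∈ I, Real.cos θ < inner ℝ z x}) ∧
    -- from codes of angle `t > π / 3` to kissing configurations
    (∀ (n : ℕ) (t s q κ : ℝ), 0 < n → Real.pi / 3 < t → t < Real.pi → s = Real.sin (t / 2) →
      0 < q → 1 + 1 / (12 * s ^ 2) ≤ q ^ 2 → q ^ 2 * (1 - s ^ 2) ≤ 1 → q ^ 2 ≤ 3 / 2 →
      κ = (4 * s ^ 2 * q ^ 2 - 1) /
        (√((4 * s ^ 2 - 1) * (3 * s ^ 2 * q ^ 2 - 1)) + s * √(q ^ 2 - 1)) →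
      (q ^ n ≤ sphMax n t → κ ^ n ≤ 2 * kissing (n + 1)) ∧
        (1 + 1 / (12 * s ^ 2) < q ^ 2 → 2 / √3 < κ)) ∧
    -- the criteria
    (Real.logb 2 (2 / √3) < liminf (fun n : ℕ => Real.logb 2 (kissing n) / n) atTop ↔
      ∃ t ∈ Ioo (Real.pi / 3) Real.pi, ∃ q > √(1 + 1 / (12 * Real.sin (t / 2) ^ 2)),
        ∀ᶠ n : ℕ in atTop, q ^ n ≤ sphMax n t) ∧
    (Real.logb 2 (2 / √3) < limsup (fun n : ℕ => Real.logb 2 (kissing n) / n) atTop ↔
      ∃ t ∈ Ioo (Real.pi / 3) Real.pi, ∃ q > √(1 + 1 / (12 * Real.sin (t / 2) ^ 2)),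
        ∃ᶠ n : ℕ in atTop, q ^ n ≤ sphMax n t) := by
  refine ⟨fun n θ hn hs I hI => replace hn hs hI, ?_, liminf_iff, limsup_iff⟩
  rintro n t s q κ hn ht ht' rfl hq0 hq hq1 hq2 rfl
  exact ⟨fun hA => kiss_code hn ht ht' hq0 hq hq1 hq2 hA, fun h => kap_gt ht ht' h hq0 hq1⟩

end Pool.Agent.Results.MP_b5f63d_co.LargerAngleCriterion
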