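import Pool.Agent.R117.HS.KissB

/-!
# Kissing configurations with isometries or linear maps of small rank

Let `X` be a set of points of a ball of `ℝⁿ` at mutual distances at least one, and let `S` be a set
of linear maps of rank at most `d` and norm at most `c` such that every difference of two points of
`X` is mapped to zero, or to a vector of length at least one, by each `φ ∈ S`. (So it is when `X` is
a subset of a lattice of minimum one with the endomorphisms `φ`; for isometries `g` take `φ = g - 1`.)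
Then the number of points is at most a power, with a fixed exponent, of `n C ^ d`, times the maximal
number of points of such a set in the common kernel of the `φ ∈ S`.

Proof. Induction on the number of the maps: let `K` be the kernel of `φ` and `V` its orthogonal
complement. The points of `X` with the same image under `φ` have differences in `K`; if the image is
not zero, then the component in `V` has length at least `1 / c` up to a translation, which reduces
the square of the radius in `K` by a fixed amount. There are at most `(1 + 2 c T) ^ d` images.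
-/

open MeasureTheory Module Filter
open scoped InnerProductSpace Topology

namespace Pool.Agent.Results.MP_b5f63d_co.SmallMovedSpaces

open Pool.Agent.H818R2 Pool.Agent.H161R2.KissSym Pool.Agent.R117.HS

/-- every `1`-separated set of points of length at most `T` in `ℝᵐ` has at most `N` points -/
def BallBound (m : ℕ) (T : ℝ) (N : ℕ) : Prop :=
  ∀ Y : Finset (E m), (∀ y ∈ Y, ‖y‖ ≤ T) → (∀ y ∈ Y, ∀ y' ∈ Y, y ≠ y' → 1 ≤ ‖y - y'‖) → Y.card ≤ N

/-- unit vectors at mutual distances at least one, that is at mutual angles at least `π / 3` -/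
def KissConf {n : ℕ} (X : Finset (E n)) : Prop :=
  (∀ x ∈ X, ‖x‖ = 1) ∧ ∀ x ∈ X, ∀ y ∈ X, x ≠ y → 1 ≤ ‖x - y‖

/-- every `g ∈ G` fixes each difference of two points of `X`, or moves it by at least one -/
def Moves {n : ℕ} (G : Set (Isom n)) (X : Finset (E n)) : Prop :=
  ∀ g ∈ G, ∀ x ∈ X, ∀ y ∈ X, g (x - y) = x - y ∨ 1 ≤ ‖g (x - y) - (x - y)‖

theorem moves_lattice {n : ℕ} (Λ : AddSubgroup (E n)) (hmin : ∀ x ∈ Λ, x ≠ 0 → 1 ≤ ‖x‖)
    (G : Set (Isom n)) (hG : ∀ g ∈ G, ∀ x ∈ Λ, g x ∈ Λ) (X : Finset (E n)) (hX : ∀ x ∈ X, x ∈ Λ) :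
    ∀ x ∈ X, ∀ y ∈ X, x ≠ y → 1 ≤ ‖x - y‖ ∧
      ∀ g ∈ G, g (x - y) = x - y ∨ 1 ≤ ‖g (x - y) - (x - y)‖ := by
  intro x hx y hy hxy
  have h1 : x - y ∈ Λ := Λ.sub_mem (hX x hx) (hX y hy)
  refine ⟨hmin _ h1 (sub_ne_zero.2 hxy), fun g hg => ?_⟩
  by_cases h : g (x - y) = x - y
  · exact Or.inl h
  · exact Or.inr (hmin _ (Λ.sub_mem (hG g hg _ h1) h1) (sub_ne_zero.2 h))

/-- the bound for kissing configurations -/
theorem conf {n d : ℕ} (G : Set (Isom n)) (hG : ∀ g ∈ G, mdim g ≤ d) (X : Finset (E n))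
    (hX : KissConf X) (hm : Moves G X) :
    X.card ≤ (1 + (n - finrank ℝ (fixSp G)) * 5 ^ d) ^ 16 * (kissing (finrank ℝ (fixSp G)) + 1) :=
  count_unit d _ G hG (fun Y h1 h2 => ball_count Y h1 h2) X (fun x hx => (hX.1 x hx).le)
    (fun x hx y hy hxy => ⟨hX.2 x hx y hy hxy, fun g hg => hm g hg x hx y hy⟩)

theorem poly17 {a : ℝ} (ha : 0 < a) :
    ∀ᶠ n : ℕ in atTop, 2 * ((n : ℝ) + 1) ^ 16 ≤ (2 : ℝ) ^ (a * n) := by
  have hr : (1 : ℝ) < 2 ^ a := Real.one_lt_rpow (by norm_num) ha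
  have h := tendsto_pow_const_div_const_pow_of_one_lt 16 hr
  have h2 := h.eventually (gt_mem_nhds (show (0 : ℝ) < 1 / 2 ^ 17 by norm_num))
  filter_upwards [h2, eventually_ge_atTop 1] with n hn hn1
  have hp : (0 : ℝ) < (2 ^ a) ^ n := by positivity
  rw [div_lt_iff₀ hp] at hn
  have h5 : (1 : ℝ) ≤ n := by exact_mod_cast hn1
  have h3 : ((n : ℝ) + 1) ^ 16 ≤ (2 * n) ^ 16 := by
    apply pow_le_pow_left₀ (by positivity)
    linarith
  have h4 : (2 : ℝ) ^ (a * n) = (2 ^ a) ^ n := by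
    rw [Real.rpow_mul (by norm_num), Real.rpow_natCast]
  rw [h4]
  rw [mul_pow] at h3
  norm_num at hn h3 ⊢
  linarith

/-- the growth rate -/
theorem growth : ∀ ε : ℝ, 0 < ε → ∀ᶠ n : ℕ in atTop, ∀ (d : ℕ) (G : Set (Isom n)),
    (∀ g ∈ G, mdim g ≤ d) → ∀ X : Finset (E n), KissConf X → Moves G X →
    (X.card : ℝ) ≤ (2 : ℝ) ^ (cplus * finrank ℝ (fixSp G) + 38 * d + ε * n) := by
  intro ε hε
  filter_upwards [Pool.Agent.TH856.KL.kiss_unif (ε / 2) (by positivity),
    poly17 (a := ε / 2) (by positivity)] with n h1 h2 d G hG X hX hm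
  have h3 := conf G hG X hX hm
  set m := finrank ℝ (fixSp G) with hmdef
  have hmn : m ≤ n := fix_le G
  have h4 := h1 m hmn
  have hc : 0 ≤ cplus := le_trans (by norm_num) Pool.Agent.TH856.KL.cplus_ge
  have h5 : (1 : ℝ) ≤ (2 : ℝ) ^ (cplus * m + ε / 2 * n) := by
    apply Real.one_le_rpow (by norm_num)
    positivity
  have h6 : (X.card : ℝ) ≤ (((1 + (n - m) * 5 ^ d) ^ 16 * (kissing m + 1) : ℕ) : ℝ) := by
    exact_mod_cast h3
  have h7 : (((1 + (n - m) * 5 ^ d) ^ 16 * (kissing m + 1) : ℕ) : ℝ) ≤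
      (((n : ℝ) + 1) * 5 ^ d) ^ 16 * (2 * (2 : ℝ) ^ (cplus * m + ε / 2 * n)) := by
    rw [Nat.cast_mul, Nat.cast_pow]
    apply mul_le_mul
    · apply pow_le_pow_left₀ (Nat.cast_nonneg _)
      have h8 : 1 + (n - m) * 5 ^ d ≤ (n + 1) * 5 ^ d := by
        have h9 : 1 ≤ 5 ^ d := Nat.one_le_pow _ _ (by norm_num)
        have h10 : (n - m) * 5 ^ d ≤ n * 5 ^ d := Nat.mul_le_mul_right _ (Nat.sub_le _ _)
        calc 1 + (n - m) * 5 ^ d ≤ 5 ^ d + n * 5 ^ d := Nat.add_le_add h9 h10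
          _ = (n + 1) * 5 ^ d := by ring
      have h11 : ((1 + (n - m) * 5 ^ d : ℕ) : ℝ) ≤ (((n + 1) * 5 ^ d : ℕ) : ℝ) := by
        exact_mod_cast h8
      refine h11.trans (le_of_eq ?_)
      push_cast
      ring
    · push_cast
      linarith
    · exact Nat.cast_nonneg _
    · positivity
  have h8 : ((5 : ℝ) ^ d) ^ 16 ≤ (2 : ℝ) ^ ((38 : ℝ) * d) := by
    have e1 : (2 : ℝ) ^ ((38 : ℝ) * d) = ((2 : ℝ) ^ 38) ^ d := by
      rw [Real.rpow_mul (by norm_num), Real.rpow_natCast]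
      congr 1
      exact_mod_cast Real.rpow_natCast 2 38
    rw [e1, ← pow_mul, mul_comm d 16, pow_mul]
    apply pow_le_pow_left₀ (by positivity)
    norm_num
  calc (X.card : ℝ) ≤ (((n : ℝ) + 1) * 5 ^ d) ^ 16 * (2 * (2 : ℝ) ^ (cplus * m + ε / 2 * n)) :=
        h6.trans h7
    _ = (2 * ((n : ℝ) + 1) ^ 16) * ((5 : ℝ) ^ d) ^ 16 * (2 : ℝ) ^ (cplus * m + ε / 2 * n) := by
        rw [mul_pow]
        ring
    _ ≤ (2 : ℝ) ^ (ε / 2 * n) * (2 : ℝ) ^ ((38 : ℝ) * d) * (2 : ℝ) ^ (cplus * m + ε / 2 * n) := by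
        apply mul_le_mul_of_nonneg_right _ (by positivity)
        exact mul_le_mul h2 h8 (by positivity) (by positivity)
    _ = _ := by
        rw [← Real.rpow_add (by norm_num), ← Real.rpow_add (by norm_num)]
        congr 1
        ring

/-- fewer points than in a largest configuration -/
theorem fewer : ∀ᶠ n : ℕ in atTop, ∀ (d : ℕ) (G : Set (Isom n)),
    (∀ g ∈ G, mdim g ≤ d) → (d : ℝ) ≤ n / 10000 → (finrank ℝ (fixSp G) : ℝ) ≤ n / 2 →
    ∀ X : Finset (E n), KissConf X → Moves G X →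
    (X.card : ℝ) ≤ (2 : ℝ) ^ (-(n : ℝ) / 1000) * kissing n := by
  filter_upwards [growth (1 / 10000) (by norm_num), eventually_gt_atTop 0]
    with n hn hn0 d G hG hd hm X hX hM
  have h1 := hn d G hG X hX hM
  have h2 := wyner' n hn0
  have h3 : cplus ≤ 397 / 1000 := cplus_le
  have hn0' : (0 : ℝ) ≤ n := Nat.cast_nonneg n
  refine h1.trans ?_
  calc (2 : ℝ) ^ (cplus * finrank ℝ (fixSp G) + 38 * d + 1 / 10000 * n)
      ≤ (2 : ℝ) ^ (-(n : ℝ) / 1000 + (83 / 400 : ℝ) * n) := by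
        apply Real.rpow_le_rpow_of_exponent_le (by norm_num)
        have h4 : cplus * finrank ℝ (fixSp G) ≤ 397 / 1000 * (n / 2) := by
          apply mul_le_mul h3 hm (Nat.cast_nonneg _) (by norm_num)
        linarith
    _ = (2 : ℝ) ^ (-(n : ℝ) / 1000) * (2 : ℝ) ^ ((83 / 400 : ℝ) * n) := by
        rw [← Real.rpow_add (by norm_num)]
    _ ≤ _ := mul_le_mul_of_nonneg_left h2 (by positivity)

/-- the linear maps of `ℝⁿ` -/
abbrev Lin (n : ℕ) := E n →ₗ[ℝ] E n

/-- the dimension of the range -/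
noncomputable def rk {n : ℕ} (φ : Lin n) : ℕ := finrank ℝ (LinearMap.range φ)

/-- the dimension of the common kernel of the maps `φ ∈ S` -/
noncomputable def kerDim {n : ℕ} (S : Set (Lin n)) : ℕ := finrank ℝ (comL S)

/-- the dimension of the space of the vectors fixed by all `g ∈ G` -/
noncomputable def fixDim {n : ℕ} (G : Set (Isom n)) : ℕ := finrank ℝ (fixSp G)

/-- different points have distance at least one -/
def Sep1 {n : ℕ} (X : Finset (E n)) : Prop := ∀ x ∈ X, ∀ y ∈ X, x ≠ y → 1 ≤ ‖x - y‖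

/-- each `φ ∈ S` maps each difference of two points to zero or to a vector of length at least `1` -/
def SepUnder {n : ℕ} (S : Set (Lin n)) (X : Finset (E n)) : Prop :=
  ∀ φ ∈ S, ∀ x ∈ X, ∀ y ∈ X, φ (x - y) = 0 ∨ 1 ≤ ‖φ (x - y)‖

/-- the bound for sets in the ball of radius `T`, for maps of rank `≤ d` and norm `≤ c` -/
noncomputable def bd (c T : ℝ) (d w : ℕ) : ℕ := (1 + w * ⌈(1 + 2 * c * T) ^ d⌉₊) ^ ⌊4 * c ^ 2 * T ^ 2⌋₊

/-- the bound for kissing configurations with isometries which move at most `d` dimensions -/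
noncomputable def bound (n d m : ℕ) : ℕ := (1 + (n - m) * 5 ^ d) ^ 16 * (kissing m + 1)

/-- all nonzero elements of `Λ` have length at least one -/
def MinOne {n : ℕ} (Λ : AddSubgroup (E n)) : Prop := ∀ x ∈ Λ, x ≠ 0 → 1 ≤ ‖x‖

/-- `g` maps `Λ` into itself -/
def Keeps {n : ℕ} (Λ : AddSubgroup (E n)) (g : Isom n) : Prop := ∀ x ∈ Λ, g x ∈ Λ

/-- the group `G` is irreducible on `ℝⁿ` -/
def Irred {n : ℕ} (G : Subgroup (Isom n)) : Prop :=
  ∀ W : Submodule ℝ (E n), (∀ h ∈ G, ∀ x ∈ W, h x ∈ W) → W = ⊥ ∨ W = ⊤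

/-- (1) sets of linear maps of rank at most `d` and norm at most `c` -/
def LinearMaps : Prop := ∀ (n d N : ℕ) (c T : ℝ), 0 < c → 0 ≤ T → ∀ S : Set (Lin n),
  (∀ φ ∈ S, rk φ ≤ d ∧ ∀ x, ‖φ x‖ ≤ c * ‖x‖) → BallBound (kerDim S) T N →
  ∀ X : Finset (E n), (∀ x ∈ X, ‖x‖ ≤ T) → Sep1 X → SepUnder S X →
  X.card ≤ bd c T d (n - kerDim S) * N

/-- (2) kissing configurations with isometries whose moved spaces have dimension at most `d` -/
def Isometries : Prop := ∀ (n d : ℕ) (G : Set (Isom n)), (∀ g ∈ G, mdim g ≤ d) →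
  ∀ X : Finset (E n), KissConf X → Moves G X → X.card ≤ bound n d (fixDim G)

/-- (3) lattices: the number of vectors of minimal length -/
def Lattices : Prop := ∀ (n d : ℕ) (G : Set (Isom n)) (Λ : AddSubgroup (E n)),
  MinOne Λ → (∀ g ∈ G, mdim g ≤ d ∧ Keeps Λ g) →
  ∀ X : Finset (E n), (∀ x ∈ X, x ∈ Λ ∧ ‖x‖ = 1) → X.card ≤ bound n d (fixDim G)

/-- (4) lattices with an irreducible group of automorphisms, one of which moves a small space -/
def Irreducible : Prop := ∀ (n : ℕ) (G : Subgroup (Isom n)) (Λ : AddSubgroup (E n)),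
  MinOne Λ → (∀ g ∈ G, Keeps Λ g) → Irred G → ∀ g ∈ G, g ≠ 1 → ∀ T : ℝ, 0 ≤ T →
  ∀ X : Finset (E n), (∀ x ∈ X, x ∈ Λ ∧ ‖x‖ ≤ T) → X.card ≤ bd 2 T (mdim g) n

/-- (5) the growth rate -/
def Growth : Prop := ∀ ε : ℝ, 0 < ε → ∀ᶠ n : ℕ in atTop, ∀ (d : ℕ) (G : Set (Isom n)),
  (∀ g ∈ G, mdim g ≤ d) → ∀ X : Finset (E n), KissConf X → Moves G X →
  (X.card : ℝ) ≤ (2 : ℝ) ^ (cplus * fixDim G + 38 * d + ε * n)

/-- (6) such configurations are exponentially smaller than the largest ones -/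
def Fewer : Prop := ∀ᶠ n : ℕ in atTop, ∀ (d : ℕ) (G : Set (Isom n)),
  (∀ g ∈ G, mdim g ≤ d) → (d : ℝ) ≤ n / 10000 → (fixDim G : ℝ) ≤ n / 2 →
  ∀ X : Finset (E n), KissConf X → Moves G X →
  (X.card : ℝ) ≤ (2 : ℝ) ^ (-(n : ℝ) / 1000) * kissing n

/-- **Kissing configurations with isometries or linear maps of small rank.** The definitions are
given above; `E n` is Euclidean `n`-space, `Isom n` the type of its linear isometries, `mdim g` the
dimension of the orthogonal complement of the fixed space of `g`, `kissing` the kissing number and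
`cplus = limsup log_2 kissing n / n`. -/
theorem result : LinearMaps ∧ Isometries ∧ Lattices ∧ Irreducible ∧ Growth ∧ Fewer := by
  refine ⟨?_, ?_, ?_, ?_, growth, fewer⟩
  · intro n d N c T hc hT S hS hN X hX hsep hund
    exact count_set hc hT d N S hS hN X hX
      (fun x hx y hy hxy => ⟨hsep x hx y hy hxy, fun φ hφ => hund φ hφ x hx y hy⟩)
  · intro n d G hG X hX hm
    exact conf G hG X hX hm
  · intro n d G Λ hmin hG X hX
    have h1 := moves_lattice Λ hmin G (fun g hg => (hG g hg).2) X (fun x hx => (hX x hx).1)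
    exact count_unit d _ G (fun g hg => (hG g hg).1) (fun Y h1 h2 => ball_count Y h1 h2) X
      (fun x hx => (hX x hx).2.le) h1
  · intro n G Λ hmin hG hirr g hg hg1 T hT X hX
    set C : Set (Isom n) := {k | ∃ h ∈ G, k = h * g * h⁻¹} with hC
    have hfix : fixSp C = ⊥ := by
      apply fix_irred G C ⟨g, ⟨1, G.one_mem, by simp⟩, hg1⟩ _ hirr
      rintro _ ⟨h, hh, rfl⟩ k hk
      exact ⟨k * h, G.mul_mem hk hh, by group⟩
    have hmem : ∀ k ∈ C, k ∈ G := by
      rintro _ ⟨h, hh, rfl⟩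
      exact G.mul_mem (G.mul_mem hh hg) (G.inv_mem hh)
    have h1 := moves_lattice Λ hmin C (fun k hk => hG k (hmem k hk)) X (fun x hx => (hX x hx).1)
    have h0 : finrank ℝ (fixSp C) = 0 := by rw [hfix, finrank_bot]
    have h2 := count_isom hT (mdim g) 1 C
      (by
        rintro _ ⟨h, hh, rfl⟩
        exact (mdim_conj g h).le)
      (by
        intro Y _ _
        rw [Finset.card_le_one]
        intro a _ b _
        have : Subsingleton (E (finrank ℝ (fixSp C))) := by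
          rw [h0]
          infer_instance
        exact Subsingleton.elim a b) X (fun x hx => (hX x hx).2) h1
    rw [h0, Nat.sub_zero, mul_one] at h2
    unfold bd
    have e1 : (1 : ℝ) + 2 * 2 * T = 1 + 4 * T := by ring
    have e2 : (4 : ℝ) * 2 ^ 2 * T ^ 2 = 16 * T ^ 2 := by ring
    rw [e1, e2]
    exact h2

end Pool.Agent.Results.MP_b5f63d_co.SmallMovedSpaces
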